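import Pool.Agent.W388.TW.D0

/-!
Hecke recursions: the coefficients `cS` are the power sums.
-/

set_option autoImplicit false

open Finset ArithmeticFunction

namespace Pool.Agent.W482.TW

/-- from prime powers to all integers -/
theorem glue (h g : ℕ → ℝ) (h1 : h 1 = 1)
    (hmul : ∀ m n : ℕ, Nat.Coprime m n → h (m * n) = h m * h n)
    (hloc : ∀ p : ℕ, p.Prime → ∀ e : ℕ, ((e : ℝ) + 1) * h (p ^ (e + 1)) =
      ∑ x ∈ antidiagonal e, g (p ^ (x.1 + 1)) * h (p ^ x.2)) :
    ∀ n : ℕ, n ≠ 0 → h n * Real.log n =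
      ∑ d ∈ n.divisors, vonMangoldt d * g d * h (n / d) := by
  intro n
  induction n using Nat.recOnPosPrimePosCoprime with
  | zero => intro h0; exact absurd rfl h0
  | one => intro _; simp
  | prime_pow p k hp hk =>
    intro _
    obtain ⟨e, rfl⟩ : ∃ e, k = e + 1 := ⟨k - 1, by omega⟩
    rw [Nat.sum_divisors_prime_pow hp, sum_range_succ']
    simp only [pow_zero, vonMangoldt_apply_one, zero_mul, add_zero]
    have h2 : ∀ j ∈ range (e + 1), vonMangoldt (p ^ (j + 1)) * g (p ^ (j + 1)) *
        h (p ^ (e + 1) / p ^ (j + 1)) = Real.log p * (g (p ^ (j + 1)) * h (p ^ (e - j))) := by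
      intro j hj
      have hj' : j ≤ e := Nat.lt_succ_iff.1 (mem_range.1 hj)
      rw [vonMangoldt_apply_pow (by omega), vonMangoldt_apply_prime hp,
        Nat.pow_div (by omega) hp.pos]
      have h3 : e + 1 - (j + 1) = e - j := by omega
      rw [h3]
      ring
    rw [sum_congr rfl h2, ← mul_sum]
    have h4 := Finset.Nat.sum_antidiagonal_eq_sum_range_succ
      (fun i k => g (p ^ (i + 1)) * h (p ^ k)) e
    rw [← Nat.succ_eq_add_one, ← h4, ← hloc p hp e, Nat.cast_pow, Real.log_pow]
    push_cast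
    ring
  | coprime a b ha hb hab iha ihb =>
    intro _
    have ha0 : a ≠ 0 := by omega
    have hb0 : b ≠ 0 := by omega
    have iha' := iha ha0
    have ihb' := ihb hb0
    have hz : ∀ m : ℕ, ∑ d ∈ m.divisors, vonMangoldt d * g d * h (a * b / d) =
        ∑ d ∈ m.divisors.filter IsPrimePow, vonMangoldt d * g d * h (a * b / d) := by
      intro m
      rw [sum_filter]
      refine sum_congr rfl fun d _ => ?_
      split_ifs with hd
      · rfl
      · rw [vonMangoldt_eq_zero_iff.2 hd, zero_mul, zero_mul]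
    rw [hz, Nat.mul_divisors_filter_prime_pow hab, filter_union, sum_union, ← hz, ← hz]
    · have e1 : ∑ d ∈ a.divisors, vonMangoldt d * g d * h (a * b / d) =
          (∑ d ∈ a.divisors, vonMangoldt d * g d * h (a / d)) * h b := by
        rw [sum_mul]
        refine sum_congr rfl fun d hd => ?_
        have hd' := Nat.dvd_of_mem_divisors hd
        rw [Nat.mul_div_right_comm hd', hmul _ _ (Nat.Coprime.coprime_dvd_left (Nat.div_dvd_of_dvd hd') hab)]
        ring
      have e2 : ∑ d ∈ b.divisors, vonMangoldt d * g d * h (a * b / d) =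
          h a * (∑ d ∈ b.divisors, vonMangoldt d * g d * h (b / d)) := by
        rw [mul_sum]
        refine sum_congr rfl fun d hd => ?_
        have hd' := Nat.dvd_of_mem_divisors hd
        rw [Nat.mul_div_assoc _ hd', hmul _ _ (Nat.Coprime.coprime_dvd_right (Nat.div_dvd_of_dvd hd') hab)]
        ring
      rw [e1, e2, ← iha', ← ihb', hmul a b hab, Nat.cast_mul,
        Real.log_mul (by exact_mod_cast ha0) (by exact_mod_cast hb0)]
      ring
    · rw [Finset.disjoint_left]
      intro d hd hd'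
      rw [mem_filter] at hd hd'
      have h3 := Nat.eq_one_of_dvd_coprimes hab (Nat.dvd_of_mem_divisors hd.1)
        (Nat.dvd_of_mem_divisors hd'.1)
      rw [h3] at hd
      exact not_isPrimePow_one hd.2

section local_identity

variable {N : ℕ} {lam : ℕ → ℝ} (H : W388.HeckeSeq N lam)

/-- the indicator of good primes -/
noncomputable def del (N p : ℕ) : ℝ := if p ∣ N then 0 else 1

include H

theorem pow_rec {p : ℕ} (hp : p.Prime) (j : ℕ) : lam (p ^ (j + 2)) =
    lam p * lam (p ^ (j + 1)) - del N p * lam (p ^ j) := by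
  rw [H.pow p j hp, del]
  split_ifs <;> simp

omit H in
theorem cS_one {p : ℕ} (hp : p.Prime) : W388.cS N lam (p ^ 1) = lam p := by
  rw [W388.cS, pow_one, hp.minFac_eq, if_neg, sub_zero]
  rintro ⟨h, -⟩
  have h1 := Nat.le_of_dvd hp.pos h
  have h2 := hp.two_le
  nlinarith

omit H in
theorem cS_pow {p : ℕ} (hp : p.Prime) (j : ℕ) : W388.cS N lam (p ^ (j + 2)) =
    lam (p ^ (j + 2)) - del N p * lam (p ^ j) := by
  rw [W388.cS, hp.pow_minFac (by omega), del]
  have h1 : p ^ 2 ∣ p ^ (j + 2) := Nat.pow_dvd_pow _ (by omega)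
  have h2 : p ^ (j + 2) / p ^ 2 = p ^ j := by
    rw [Nat.pow_div (by omega) hp.pos]
    rfl
  rw [h2]
  by_cases h : p ∣ N
  · simp [h]
  · simp [h, h1]

theorem loc1 {p : ℕ} (hp : p.Prime) : ∀ e : ℕ, ((e : ℝ) + 1) * lam (p ^ (e + 1)) =
    ∑ x ∈ antidiagonal e, W388.cS N lam (p ^ (x.1 + 1)) * lam (p ^ x.2) := by
  have key : ∀ e : ℕ, (((e : ℝ) + 1) * lam (p ^ (e + 1)) =
      ∑ x ∈ antidiagonal e, W388.cS N lam (p ^ (x.1 + 1)) * lam (p ^ x.2)) ∧
      (((e : ℝ) + 2) * lam (p ^ (e + 2)) =
      ∑ x ∈ antidiagonal (e + 1), W388.cS N lam (p ^ (x.1 + 1)) * lam (p ^ x.2)) := by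
    intro e
    induction e with
    | zero =>
      have h2 := pow_rec H hp 0
      have h3 := cS_pow (N := N) (lam := lam) hp 0
      have h4 := cS_one (N := N) (lam := lam) hp
      rw [Finset.Nat.sum_antidiagonal_succ', Finset.Nat.antidiagonal_zero, sum_singleton,
        sum_singleton]
      simp only [zero_add, pow_zero, H.one, pow_one, mul_one] at *
      constructor
      · rw [h4]; push_cast; ring
      · rw [h4, h3, h2]; push_cast; ring
    | succ e ih =>
      obtain ⟨i1, i2⟩ := ih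
      refine ⟨by push_cast at i2 ⊢; linarith, ?_⟩
      rw [Finset.Nat.sum_antidiagonal_succ', Finset.Nat.sum_antidiagonal_succ']
      rw [Finset.Nat.sum_antidiagonal_succ'] at i2
      have h2 : ∑ x ∈ antidiagonal e, W388.cS N lam (p ^ (x.1 + 1)) * lam (p ^ (x.2 + 1 + 1)) =
          lam p * ∑ x ∈ antidiagonal e, W388.cS N lam (p ^ (x.1 + 1)) * lam (p ^ (x.2 + 1)) -
          del N p * ∑ x ∈ antidiagonal e, W388.cS N lam (p ^ (x.1 + 1)) * lam (p ^ x.2) := by
        rw [mul_sum, mul_sum, ← sum_sub_distrib]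
        refine sum_congr rfl fun x _ => ?_
        rw [show x.2 + 1 + 1 = x.2 + 2 from rfl, pow_rec H hp]
        ring
      simp only [zero_add, pow_zero, pow_one, H.one, mul_one] at i1 i2 ⊢
      rw [h2, ← i1]
      have h3 := cS_pow (N := N) (lam := lam) hp (e + 1)
      have h4 := pow_rec H hp (e + 1)
      rw [show e + 1 + 1 + 1 = e + 1 + 2 from rfl, h3]
      have i2' : ∑ x ∈ antidiagonal e, W388.cS N lam (p ^ (x.1 + 1)) * lam (p ^ (x.2 + 1)) =
          ((e : ℝ) + 2) * lam (p ^ (e + 2)) - W388.cS N lam (p ^ (e + 1 + 1)) := by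
        linarith
      rw [i2', h4]
      push_cast
      rw [show e + 1 + 1 = e + 2 from rfl]
      ring
  exact fun e => (key e).1

end local_identity

/-- **TW-Id1** -/
theorem t_id1 : W388.StId1 := by
  intro N lam H n hn
  exact glue lam (W388.cS N lam) H.one H.mul (fun p hp e => loc1 H hp e) n hn

end Pool.Agent.W482.TW
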