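import Pool.Agent.W482.TW.Id

/-!
The second identity: `AA * log = (Λ c²) * AA`.
-/

set_option autoImplicit false

open Finset ArithmeticFunction

namespace Pool.Agent.W482.TW

section AA

variable {N : ℕ} {lam : ℕ → ℝ} (H : W388.HeckeSeq N lam)

/-- the index set -/
def ix (N n : ℕ) : Finset ℕ := (Icc 1 n).filter (fun m => m ^ 2 ∣ n ∧ Nat.Coprime m N)

theorem mem_ix {N n m : ℕ} (hn : n ≠ 0) : m ∈ ix N n ↔ m ^ 2 ∣ n ∧ Nat.Coprime m N := by
  rw [ix, mem_filter, mem_Icc]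
  constructor
  · exact fun h => h.2
  · intro h
    have hm : m ≠ 0 := by
      rintro rfl
      have := h.1
      simp at this
      exact hn this
    refine ⟨⟨by omega, ?_⟩, h⟩
    exact Nat.le_of_dvd (by omega) ((dvd_pow_self m (by norm_num)).trans h.1)

theorem AA_eq (n : ℕ) : W388.AA N lam n = ∑ m ∈ ix N n, lam (n / m ^ 2) ^ 2 := rfl

include H

theorem AA_one : W388.AA N lam 1 = 1 := by
  rw [AA_eq]
  have h : ix N 1 = {1} := by
    ext m
    rw [mem_ix (by norm_num), mem_singleton]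
    constructor
    · intro h
      have := Nat.dvd_one.1 h.1
      simpa using this
    · rintro rfl
      simp
  rw [h, sum_singleton]
  simp [H.one]

theorem AA_mul (a b : ℕ) (hab : Nat.Coprime a b) :
    W388.AA N lam (a * b) = W388.AA N lam a * W388.AA N lam b := by
  rcases Nat.eq_zero_or_pos a with rfl | ha
  · have h0 : W388.AA N lam 0 = 0 := by simp [W388.AA]
    rw [zero_mul, h0, zero_mul]
  rcases Nat.eq_zero_or_pos b with rfl | hb
  · have h0 : W388.AA N lam 0 = 0 := by simp [W388.AA]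
    rw [mul_zero, h0, mul_zero]
  have hab0 : a * b ≠ 0 := (Nat.mul_pos ha hb).ne'
  rw [AA_eq, AA_eq, AA_eq, sum_mul_sum, ← sum_product']
  symm
  refine sum_nbij' (fun x => x.1 * x.2) (fun m => (Nat.gcd m a, Nat.gcd m b)) ?_ ?_ ?_ ?_ ?_
  · rintro ⟨m, n⟩ hx
    rw [mem_product, mem_ix ha.ne', mem_ix hb.ne'] at hx
    obtain ⟨⟨h1, h2⟩, h3, h4⟩ := hx
    rw [mem_ix hab0]
    dsimp only at h1 h2 h3 h4 ⊢
    rw [mul_pow]
    exact ⟨mul_dvd_mul h1 h3, Nat.Coprime.mul_left h2 h4⟩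
  · intro m hm
    rw [mem_ix hab0] at hm
    obtain ⟨h1, h2⟩ := hm
    rw [mem_product, mem_ix ha.ne', mem_ix hb.ne']
    refine ⟨⟨?_, ?_⟩, ⟨?_, ?_⟩⟩
    · have h3 : (Nat.gcd m a) ^ 2 ∣ a * b := (pow_dvd_pow_of_dvd (Nat.gcd_dvd_left m a) 2).trans h1
      have h4 : Nat.Coprime ((Nat.gcd m a) ^ 2) b :=
        Nat.Coprime.pow_left 2 (Nat.Coprime.coprime_dvd_left (Nat.gcd_dvd_right m a) hab)
      exact h4.dvd_of_dvd_mul_right h3
    · exact Nat.Coprime.coprime_dvd_left (Nat.gcd_dvd_left m a) h2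
    · have h3 : (Nat.gcd m b) ^ 2 ∣ a * b := (pow_dvd_pow_of_dvd (Nat.gcd_dvd_left m b) 2).trans h1
      have h4 : Nat.Coprime ((Nat.gcd m b) ^ 2) a :=
        Nat.Coprime.pow_left 2 (Nat.Coprime.coprime_dvd_left (Nat.gcd_dvd_right m b) hab.symm)
      exact h4.dvd_of_dvd_mul_left h3
    · exact Nat.Coprime.coprime_dvd_left (Nat.gcd_dvd_left m b) h2
  · rintro ⟨m, n⟩ hx
    rw [mem_product, mem_ix ha.ne', mem_ix hb.ne'] at hx
    obtain ⟨⟨h1, h2⟩, h3, h4⟩ := hx
    dsimp only at h1 h2 h3 h4 ⊢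
    have k1 : m ∣ a := (dvd_pow_self m (by norm_num)).trans h1
    have k2 : n ∣ b := (dvd_pow_self n (by norm_num)).trans h3
    refine Prod.ext ?_ ?_
    · change Nat.gcd (m * n) a = m
      rw [Nat.Coprime.gcd_mul_right_cancel m (Nat.Coprime.coprime_dvd_left k2 hab.symm)]
      exact Nat.gcd_eq_left k1
    · change Nat.gcd (m * n) b = n
      rw [Nat.Coprime.gcd_mul_left_cancel n (Nat.Coprime.coprime_dvd_left k1 hab)]
      exact Nat.gcd_eq_left k2
  · intro m hm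
    rw [mem_ix hab0] at hm
    have h3 : m ∣ a * b := (dvd_pow_self m (by norm_num)).trans hm.1
    change Nat.gcd m a * Nat.gcd m b = m
    rw [← Nat.Coprime.gcd_mul m hab]
    exact Nat.gcd_eq_left h3
  · rintro ⟨m, n⟩ hx
    rw [mem_product, mem_ix ha.ne', mem_ix hb.ne'] at hx
    obtain ⟨⟨h1, h2⟩, h3, h4⟩ := hx
    dsimp only at h1 h2 h3 h4 ⊢
    rw [mul_pow m n, ← Nat.div_mul_div_comm h1 h3, H.mul, mul_pow]
    exact Nat.Coprime.coprime_dvd_left (Nat.div_dvd_of_dvd h1)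
      (Nat.Coprime.coprime_dvd_right (Nat.div_dvd_of_dvd h3) hab)

omit H in
theorem ix_bad {p : ℕ} (hp : p.Prime) (hpN : p ∣ N) (e : ℕ) : ix N (p ^ e) = {1} := by
  ext m
  rw [mem_ix (pow_ne_zero _ hp.ne_zero), mem_singleton]
  constructor
  · rintro ⟨h1, h2⟩
    have h3 : m ∣ p ^ e := (dvd_pow_self m (by norm_num)).trans h1
    obtain ⟨k, -, rfl⟩ := (Nat.dvd_prime_pow hp).1 h3
    rcases Nat.eq_zero_or_pos k with rfl | hk
    · simp
    · exfalso
      have h4 : p ∣ Nat.gcd (p ^ k) N := Nat.dvd_gcd (dvd_pow_self p (by omega)) hpN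
      rw [h2] at h4
      exact hp.one_lt.ne' (Nat.dvd_one.1 h4)
  · rintro rfl
    simp

omit H in
theorem ix_zero {p : ℕ} : ix N (p ^ 0) = {1} := by
  ext m
  rw [mem_ix (by norm_num), mem_singleton, pow_zero]
  constructor
  · rintro ⟨h1, h2⟩
    have := Nat.dvd_one.1 h1
    simpa using this
  · rintro rfl
    simp

omit H in
theorem ix_p {p : ℕ} (hp : p.Prime) : ix N (p ^ 1) = {1} := by
  ext m
  rw [mem_ix (pow_ne_zero _ hp.ne_zero), mem_singleton, pow_one]
  constructor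
  · rintro ⟨h1, h2⟩
    rcases (Nat.dvd_prime hp).1 ((dvd_pow_self m (by norm_num)).trans h1) with h | h
    · exact h
    · exfalso
      rw [h] at h1
      have := Nat.le_of_dvd hp.pos h1
      nlinarith [hp.two_le]
  · rintro rfl
    simp

omit H in
theorem ix_step {p : ℕ} (hp : p.Prime) (hpN : ¬ p ∣ N) (e : ℕ) :
    ix N (p ^ (e + 2)) = insert 1 ((ix N (p ^ e)).image (fun m => p * m)) := by
  ext m
  rw [mem_ix (pow_ne_zero _ hp.ne_zero), mem_insert, mem_image]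
  constructor
  · rintro ⟨h1, h2⟩
    have h3 : m ∣ p ^ (e + 2) := (dvd_pow_self m (by norm_num)).trans h1
    obtain ⟨k, -, rfl⟩ := (Nat.dvd_prime_pow hp).1 h3
    rcases Nat.eq_zero_or_pos k with rfl | hk
    · left; simp
    · right
      obtain ⟨j, rfl⟩ : ∃ j, k = j + 1 := ⟨k - 1, by omega⟩
      refine ⟨p ^ j, ?_, by rw [pow_succ]; ring⟩
      rw [mem_ix (pow_ne_zero _ hp.ne_zero)]
      constructor
      · rw [← pow_mul] at h1 ⊢
        have h4 := (Nat.pow_dvd_pow_iff_le_right hp.one_lt).1 h1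
        exact Nat.pow_dvd_pow _ (by omega)
      · exact Nat.Coprime.coprime_dvd_left (Nat.pow_dvd_pow _ (by omega)) h2
  · rintro (rfl | ⟨n, hn, rfl⟩)
    · simp
    · rw [mem_ix (pow_ne_zero _ hp.ne_zero)] at hn
      constructor
      · rw [mul_pow, pow_add, mul_comm]
        exact mul_dvd_mul hn.1 dvd_rfl
      · exact Nat.Coprime.mul_left ((Nat.Prime.coprime_iff_not_dvd hp).2 hpN) hn.2

omit H in
theorem AA_step {p : ℕ} (hp : p.Prime) (hpN : ¬ p ∣ N) (e : ℕ) :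
    W388.AA N lam (p ^ (e + 2)) = lam (p ^ (e + 2)) ^ 2 + W388.AA N lam (p ^ e) := by
  rw [AA_eq, AA_eq, ix_step hp hpN, sum_insert, sum_image]
  · congr 1
    · simp
    · refine sum_congr rfl fun m hm => ?_
      rw [mem_ix (pow_ne_zero _ hp.ne_zero)] at hm
      congr 2
      rw [mul_pow, pow_add, mul_comm (p ^ e)]
      exact Nat.mul_div_mul_left _ _ (pow_pos hp.pos 2)
  · intro a _ b _ h
    exact Nat.eq_of_mul_eq_mul_left hp.pos h
  · rw [mem_image]
    rintro ⟨m, -, h⟩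
    exact hp.one_lt.ne' (Nat.eq_one_of_mul_eq_one_right h)

omit H in
theorem AA_zero' {p : ℕ} : W388.AA N lam (p ^ 0) = lam 1 ^ 2 := by
  rw [AA_eq, ix_zero]
  simp

omit H in
theorem AA_p {p : ℕ} (hp : p.Prime) : W388.AA N lam (p ^ 1) = lam p ^ 2 := by
  rw [AA_eq, ix_p hp]
  simp

omit H in
theorem AA_bad {p : ℕ} (hp : p.Prime) (hpN : p ∣ N) (e : ℕ) :
    W388.AA N lam (p ^ e) = lam (p ^ e) ^ 2 := by
  rw [AA_eq, ix_bad hp hpN]
  simp

theorem lam_bad {p : ℕ} (hp : p.Prime) (hpN : p ∣ N) (e : ℕ) : lam (p ^ e) = lam p ^ e := by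
  induction e using Nat.strong_induction_on with
  | _ e ih =>
    match e, ih with
    | 0, _ => simp [H.one]
    | 1, _ => simp
    | e + 2, ih =>
      rw [pow_rec H hp e, ih (e + 1) (by omega), del, if_pos hpN]
      ring

theorem cS_bad {p : ℕ} (hp : p.Prime) (hpN : p ∣ N) (e : ℕ) :
    W388.cS N lam (p ^ (e + 1)) = lam p ^ (e + 1) := by
  rcases e with _ | e
  · rw [zero_add, cS_one hp, pow_one]
  · rw [show e + 1 + 1 = e + 2 from rfl, cS_pow hp, lam_bad H hp hpN, del, if_pos hpN]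
    ring

/-- the key relation for first differences -/
theorem diff_rel {p : ℕ} (hp : p.Prime) (hpN : ¬ p ∣ N) (n : ℕ) :
    (lam p * (W388.AA N lam (p ^ (n + 1)) - W388.AA N lam (p ^ n)) =
      lam (p ^ (n + 1)) * lam (p ^ (n + 2))) ∧
    (lam p * (W388.AA N lam (p ^ (n + 2)) - W388.AA N lam (p ^ (n + 1))) =
      lam (p ^ (n + 2)) * lam (p ^ (n + 3))) := by
  have hd : del N p = 1 := by rw [del, if_neg hpN]
  induction n with
  | zero =>
    have h0 := AA_zero' (N := N) (lam := lam) (p := p)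
    have h1 := AA_p (N := N) (lam := lam) hp
    have h2 := AA_step (N := N) (lam := lam) hp hpN 0
    have h3 := pow_rec H hp 0
    have h4 := pow_rec H hp 1
    rw [hd] at h3 h4
    simp only [zero_add, pow_zero, pow_one, H.one, one_pow, mul_one, one_mul] at *
    rw [show (1 : ℕ) + 2 = 3 from rfl, show (1 : ℕ) + 1 = 2 from rfl] at h4
    constructor
    · rw [h1, h0, h3]; ring
    · rw [h2, h1, h0, h4, h3]; ring
  | succ n ih =>
    obtain ⟨i1, i2⟩ := ih
    refine ⟨i2, ?_⟩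
    have h2 := AA_step (N := N) (lam := lam) hp hpN (n + 1)
    have h2' := AA_step (N := N) (lam := lam) hp hpN n
    have h3 := pow_rec H hp (n + 1)
    have h4 := pow_rec H hp (n + 2)
    rw [hd] at h3 h4
    rw [show n + 1 + 2 = n + 3 from rfl] at *
    rw [show n + 2 + 2 = n + 4 from rfl, show n + 2 + 1 = n + 3 from rfl] at h4
    rw [show n + 1 + 1 = n + 2 from rfl] at *
    rw [show n + 1 + 3 = n + 4 from rfl]
    rw [h2, h2', h4]
    linear_combination i1 + lam (p ^ (n + 2)) * h3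

/-- the four term recurrence -/
theorem AA_rec {p : ℕ} (hp : p.Prime) (hpN : ¬ p ∣ N) (k : ℕ) :
    W388.AA N lam (p ^ (k + 4)) = lam p ^ 2 * W388.AA N lam (p ^ (k + 3)) -
      (2 * lam p ^ 2 - 2) * W388.AA N lam (p ^ (k + 2)) +
      lam p ^ 2 * W388.AA N lam (p ^ (k + 1)) - W388.AA N lam (p ^ k) := by
  have hd : del N p = 1 := by rw [del, if_neg hpN]
  have h1 := AA_step (N := N) (lam := lam) hp hpN (k + 2)
  have h2 := AA_step (N := N) (lam := lam) hp hpN (k + 1)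
  have h3 := AA_step (N := N) (lam := lam) hp hpN k
  have h4 := (diff_rel H hp hpN k).2
  have h5 := pow_rec H hp (k + 2)
  rw [hd] at h5
  rw [show k + 2 + 2 = k + 4 from rfl] at *
  rw [show k + 1 + 2 = k + 3 from rfl] at *
  rw [show k + 2 + 1 = k + 3 from rfl] at *
  rw [h5] at h1
  linear_combination h1 - lam p ^ 2 * h2 - h3 + 2 * lam p * h4

/-- the square of the power sum -/
theorem cS_sq {p : ℕ} (hp : p.Prime) (hpN : ¬ p ∣ N) (e : ℕ) :
    W388.cS N lam (p ^ (e + 5)) ^ 2 = 4 * W388.AA N lam (p ^ (e + 5)) -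
      3 * lam p ^ 2 * W388.AA N lam (p ^ (e + 4)) +
      (4 * lam p ^ 2 - 4) * W388.AA N lam (p ^ (e + 3)) -
      lam p ^ 2 * W388.AA N lam (p ^ (e + 2)) := by
  have hd : del N p = 1 := by rw [del, if_neg hpN]
  have h1 := AA_step (N := N) (lam := lam) hp hpN (e + 3)
  have h2 := AA_step (N := N) (lam := lam) hp hpN (e + 2)
  have h4 := (diff_rel H hp hpN (e + 1)).2
  have h5 := pow_rec H hp (e + 3)
  have h6 := cS_pow (N := N) (lam := lam) hp (e + 3)
  rw [hd] at h5 h6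
  rw [show e + 3 + 2 = e + 5 from rfl] at *
  rw [show e + 2 + 2 = e + 4 from rfl] at *
  rw [show e + 3 + 1 = e + 4 from rfl] at *
  rw [show e + 1 + 2 = e + 3 from rfl, show e + 1 + 1 = e + 2 from rfl,
    show e + 1 + 3 = e + 4 from rfl] at h4
  rw [h6, h5]
  rw [h5] at h1
  linear_combination -4 * h1 + 3 * lam p ^ 2 * h2 - 4 * lam p * h4

theorem loc2_good {p : ℕ} (hp : p.Prime) (hpN : ¬ p ∣ N) : ∀ e : ℕ,
    ((e : ℝ) + 1) * W388.AA N lam (p ^ (e + 1)) =
    ∑ x ∈ antidiagonal e, W388.cS N lam (p ^ (x.1 + 1)) ^ 2 * W388.AA N lam (p ^ x.2) := by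
  have hd : del N p = 1 := by rw [del, if_neg hpN]
  -- small values
  have a0 : W388.AA N lam (p ^ 0) = 1 := by rw [AA_zero', H.one, one_pow]
  have a1 : W388.AA N lam (p ^ 1) = lam p ^ 2 := AA_p hp
  have l2 : lam (p ^ 2) = lam p ^ 2 - 1 := by
    have := pow_rec H hp 0
    rw [hd] at this
    simp only [zero_add, pow_zero, pow_one, H.one] at this
    rw [this]; ring
  have l3 : lam (p ^ 3) = lam p ^ 3 - 2 * lam p := by
    have := pow_rec H hp 1
    rw [hd] at this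
    simp only [show 1 + 2 = 3 from rfl, show 1 + 1 = 2 from rfl, pow_one, l2] at this
    rw [this]; ring
  have l4 : lam (p ^ 4) = lam p ^ 4 - 3 * lam p ^ 2 + 1 := by
    have := pow_rec H hp 2
    rw [hd] at this
    simp only [show 2 + 2 = 4 from rfl, show 2 + 1 = 3 from rfl, l2, l3] at this
    rw [this]; ring
  have a2 : W388.AA N lam (p ^ 2) = lam p ^ 4 - 2 * lam p ^ 2 + 2 := by
    have := AA_step (N := N) (lam := lam) hp hpN 0
    rw [zero_add, a0, l2] at this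
    rw [this]; ring
  have a3 : W388.AA N lam (p ^ 3) = lam p ^ 6 - 4 * lam p ^ 4 + 5 * lam p ^ 2 := by
    have := AA_step (N := N) (lam := lam) hp hpN 1
    rw [show 1 + 2 = 3 from rfl, a1, l3] at this
    rw [this]; ring
  have a4 : W388.AA N lam (p ^ 4) = (lam p ^ 4 - 3 * lam p ^ 2 + 1) ^ 2 +
      (lam p ^ 4 - 2 * lam p ^ 2 + 2) := by
    have := AA_step (N := N) (lam := lam) hp hpN 2
    rw [show 2 + 2 = 4 from rfl, a2, l4] at this
    rw [this]
  have c1 : W388.cS N lam (p ^ 1) = lam p := cS_one hp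
  have c2 : W388.cS N lam (p ^ 2) = lam p ^ 2 - 2 := by
    have := cS_pow (N := N) (lam := lam) hp 0
    rw [zero_add, pow_zero, H.one, l2, hd] at this
    rw [this]; ring
  have c3 : W388.cS N lam (p ^ 3) = lam p ^ 3 - 3 * lam p := by
    have := cS_pow (N := N) (lam := lam) hp 1
    rw [show 1 + 2 = 3 from rfl, pow_one, l3, hd] at this
    rw [this]; ring
  have c4 : W388.cS N lam (p ^ 4) = lam p ^ 4 - 4 * lam p ^ 2 + 2 := by
    have := cS_pow (N := N) (lam := lam) hp 2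
    rw [show 2 + 2 = 4 from rfl, l4, l2, hd] at this
    rw [this]; ring
  let T : ℕ → ℝ := fun e =>
    ∑ x ∈ antidiagonal e, W388.cS N lam (p ^ (x.1 + 1)) ^ 2 * W388.AA N lam (p ^ x.2)
  let A : ℕ → ℝ := fun e => W388.AA N lam (p ^ e)
  let s : ℕ → ℝ := fun e => W388.cS N lam (p ^ e) ^ 2
  have T0 : T 0 = s 1 * A 0 := by
    simp only [T, Finset.Nat.antidiagonal_zero, sum_singleton, s, A, zero_add]
  have Ts : ∀ (f : ℕ → ℝ) (e : ℕ), ∑ x ∈ antidiagonal (e + 1), s (x.1 + 1) * f x.2 =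
      s (e + 2) * f 0 + ∑ x ∈ antidiagonal e, s (x.1 + 1) * f (x.2 + 1) := by
    intro f e
    rw [Finset.Nat.sum_antidiagonal_succ']
  have Tr : ∀ e, T (e + 4) = lam p ^ 2 * T (e + 3) - (2 * lam p ^ 2 - 2) * T (e + 2) +
      lam p ^ 2 * T (e + 1) - T e + s (e + 5) := by
    intro e
    have hT : ∀ e, T e = ∑ x ∈ antidiagonal e, s (x.1 + 1) * A x.2 := fun _ => rfl
    rw [hT, hT, hT, hT, hT]
    rw [Ts A (e + 3), Ts (fun k => A (k + 1)) (e + 2), Ts (fun k => A (k + 1 + 1)) (e + 1),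
      Ts (fun k => A (k + 1 + 1 + 1)) e]
    rw [Ts A (e + 2), Ts (fun k => A (k + 1)) (e + 1), Ts (fun k => A (k + 1 + 1)) e]
    rw [Ts A (e + 1), Ts (fun k => A (k + 1)) e]
    rw [Ts A e]
    have h2 : ∑ x ∈ antidiagonal e, s (x.1 + 1) * A (x.2 + 1 + 1 + 1 + 1) =
        lam p ^ 2 * ∑ x ∈ antidiagonal e, s (x.1 + 1) * A (x.2 + 1 + 1 + 1) -
        (2 * lam p ^ 2 - 2) * ∑ x ∈ antidiagonal e, s (x.1 + 1) * A (x.2 + 1 + 1) +
        lam p ^ 2 * ∑ x ∈ antidiagonal e, s (x.1 + 1) * A (x.2 + 1) -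
        ∑ x ∈ antidiagonal e, s (x.1 + 1) * A x.2 := by
      rw [mul_sum, mul_sum, mul_sum, ← sum_sub_distrib, ← sum_add_distrib, ← sum_sub_distrib]
      refine sum_congr rfl fun x _ => ?_
      have h3 : A (x.2 + 1 + 1 + 1 + 1) = lam p ^ 2 * A (x.2 + 1 + 1 + 1) -
          (2 * lam p ^ 2 - 2) * A (x.2 + 1 + 1) + lam p ^ 2 * A (x.2 + 1) - A x.2 :=
        AA_rec H hp hpN x.2
      rw [h3]
      ring
    rw [h2]
    have b0 : A 0 = 1 := a0
    have b1 : A (0 + 1) = lam p ^ 2 := a1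
    have b2 : A (0 + 1 + 1) = lam p ^ 4 - 2 * lam p ^ 2 + 2 := a2
    have b3 : A (0 + 1 + 1 + 1) = lam p ^ 6 - 4 * lam p ^ 4 + 5 * lam p ^ 2 := a3
    rw [b0, b1, b2, b3]
    ring
  have key : ∀ e : ℕ, (((e : ℝ) + 1) * A (e + 1) = T e) ∧ (((e : ℝ) + 2) * A (e + 2) = T (e + 1)) ∧
      (((e : ℝ) + 3) * A (e + 3) = T (e + 2)) ∧ (((e : ℝ) + 4) * A (e + 4) = T (e + 3)) := by
    intro e
    induction e with
    | zero =>
      have b0 : A 0 = 1 := a0
      have b1 : A 1 = lam p ^ 2 := a1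
      have b2 : A 2 = lam p ^ 4 - 2 * lam p ^ 2 + 2 := a2
      have b3 : A 3 = lam p ^ 6 - 4 * lam p ^ 4 + 5 * lam p ^ 2 := a3
      have b4 : A 4 = (lam p ^ 4 - 3 * lam p ^ 2 + 1) ^ 2 +
        (lam p ^ 4 - 2 * lam p ^ 2 + 2) := a4
      have s1 : s 1 = lam p ^ 2 := by simp only [s, c1]
      have s2 : s 2 = (lam p ^ 2 - 2) ^ 2 := by simp only [s, c2]
      have s3 : s 3 = (lam p ^ 3 - 3 * lam p) ^ 2 := by simp only [s, c3]
      have s4 : s 4 = (lam p ^ 4 - 4 * lam p ^ 2 + 2) ^ 2 := by simp only [s, c4]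
      have T1 : T 1 = s 2 * A 0 + s 1 * A 1 := by
        have := Ts A 0
        simp only [zero_add, Finset.Nat.antidiagonal_zero, sum_singleton] at this
        exact this
      have T2 : T 2 = s 3 * A 0 + (s 2 * A 1 + s 1 * A 2) := by
        have h1 := Ts A 1
        have h2 := Ts (fun k => A (k + 1)) 0
        simp only [zero_add, Finset.Nat.antidiagonal_zero, sum_singleton] at h1 h2
        rw [h2] at h1
        exact h1
      have T3 : T 3 = s 4 * A 0 + (s 3 * A 1 + (s 2 * A 2 + s 1 * A 3)) := by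
        have h1 := Ts A 2
        have h2 := Ts (fun k => A (k + 1)) 1
        have h3 := Ts (fun k => A (k + 1 + 1)) 0
        simp only [zero_add, Finset.Nat.antidiagonal_zero, sum_singleton] at h1 h2 h3
        rw [h3] at h2
        rw [h2] at h1
        exact h1
      simp only [zero_add, Nat.cast_zero]
      rw [T0, T1, T2, T3, s1, s2, s3, s4, b0, b1, b2, b3, b4]
      refine ⟨?_, ?_, ?_, ?_⟩ <;> ring
    | succ e ih =>
      obtain ⟨i1, i2, i3, i4⟩ := ih
      refine ⟨by push_cast; rw [show e + 1 + 1 = e + 2 from rfl]; linarith,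
        by push_cast; rw [show e + 1 + 2 = e + 3 from rfl]; linarith,
        by push_cast; rw [show e + 1 + 3 = e + 4 from rfl]; linarith, ?_⟩
      rw [show e + 1 + 4 = e + 5 from rfl, show e + 1 + 3 = e + 4 from rfl, Tr e, ← i1, ← i2,
        ← i3, ← i4]
      have h1 : s (e + 5) = 4 * A (e + 5) - 3 * lam p ^ 2 * A (e + 4) +
        (4 * lam p ^ 2 - 4) * A (e + 3) - lam p ^ 2 * A (e + 2) := cS_sq H hp hpN e
      have h2 : A (e + 5) = lam p ^ 2 * A (e + 4) - (2 * lam p ^ 2 - 2) * A (e + 3) +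
        lam p ^ 2 * A (e + 2) - A (e + 1) := AA_rec H hp hpN (e + 1)
      push_cast
      rw [h1]
      linear_combination ((e : ℝ) + 1) * h2
  exact fun e => (key e).1

theorem loc2 {p : ℕ} (hp : p.Prime) (e : ℕ) : ((e : ℝ) + 1) * W388.AA N lam (p ^ (e + 1)) =
    ∑ x ∈ antidiagonal e, W388.cS N lam (p ^ (x.1 + 1)) ^ 2 * W388.AA N lam (p ^ x.2) := by
  by_cases hpN : p ∣ N
  · have h : ∀ x ∈ antidiagonal e, W388.cS N lam (p ^ (x.1 + 1)) ^ 2 * W388.AA N lam (p ^ x.2) =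
        lam p ^ (2 * (e + 1)) := by
      intro x hx
      rw [HasAntidiagonal.mem_antidiagonal] at hx
      rw [cS_bad H hp hpN, AA_bad hp hpN, lam_bad H hp hpN, ← hx]
      ring
    rw [sum_congr rfl h, sum_const, Finset.Nat.card_antidiagonal, AA_bad hp hpN,
      lam_bad H hp hpN, nsmul_eq_mul]
    push_cast
    ring
  · exact loc2_good H hp hpN e

end AA

/-- **TW-Id2** -/
theorem t_id2 : W388.StId2 := by
  intro N lam H n hn
  exact glue (W388.AA N lam) (fun d => W388.cS N lam d ^ 2) (AA_one H) (AA_mul H)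
    (fun p hp e => loc2 H hp e) n hn

end Pool.Agent.W482.TW
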